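import Pool.Agent.FBT.Words

/-!
The identities of an abelian-by-(finite soluble) group are finitely based up to torsion of the
order of the finite quotient.
-/

set_option autoImplicit false

universe u v

/-- Let `A` be an abelian normal subgroup of the group `G` with `G ⧸ A` finite and soluble. There
is a finite set `S` of laws of `G` such that every law of `G` has a power, with exponent a power
of the order of `G ⧸ A`, in the fully invariant subgroup generated by `S`. Consequently every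
group in which the laws in `S` hold, and which has no element of prime order `p` for the primes
`p` dividing the order of `G ⧸ A`, satisfies all laws of `G`. -/
theorem Pool.Agent.Results.MP_637d93_al.FiniteBasisModTorsion.result :
    ∀ (G : Type u) [Group G] (A : Subgroup G) [A.Normal],
      (∀ a ∈ A, ∀ b ∈ A, a * b = b * a) →
      Finite (G ⧸ A) →
      Group.IsSolvable (G ⧸ A) →
      ∃ S : Finset (FreeGroup ℕ),
        (∀ s ∈ S, ∀ f : ℕ → G, FreeGroup.lift f s = 1) ∧
        (∀ w : FreeGroup ℕ, (∀ f : ℕ → G, FreeGroup.lift f w = 1) →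
          ∃ k : ℕ, w ^ (Nat.card (G ⧸ A) ^ k) ∈ Subgroup.closure
            {x : FreeGroup ℕ | ∃ s ∈ S, ∃ φ : FreeGroup ℕ →* FreeGroup ℕ, φ s = x}) ∧
        (∀ (H : Type v) [Group H],
          (∀ s ∈ S, ∀ f : ℕ → H, FreeGroup.lift f s = 1) →
          (∀ p : ℕ, p.Prime → p ∣ Nat.card (G ⧸ A) → ∀ h : H, h ^ p = 1 → h = 1) →
          ∀ w : FreeGroup ℕ, (∀ f : ℕ → G, FreeGroup.lift f w = 1) →
            ∀ f : ℕ → H, FreeGroup.lift f w = 1) := by
  intro G _ A _ hab hfin hsol
  obtain ⟨S, hS1, hS2⟩ := Pool.Agent.FBT.main_semantic.{u, 0} A hab hfin hsol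
  have hclos : ∀ w : FreeGroup ℕ, (∀ f : ℕ → G, FreeGroup.lift f w = 1) →
      ∃ k : ℕ, w ^ (Nat.card (G ⧸ A) ^ k) ∈ Subgroup.closure
        {x : FreeGroup ℕ | ∃ s ∈ S, ∃ φ : FreeGroup ℕ →* FreeGroup ℕ, φ s = x} := by
    intro w hw
    set V : Subgroup (FreeGroup ℕ) := Subgroup.closure
      {x : FreeGroup ℕ | ∃ s ∈ S, ∃ φ : FreeGroup ℕ →* FreeGroup ℕ, φ s = x} with hV
    have hVn : V.Normal := by
      apply Pool.Agent.FBT.closure_normal
      rintro x ⟨s, hs, φ, rfl⟩ g
      exact ⟨s, hs, (MulAut.conj g).toMonoidHom.comp φ, rfl⟩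
    have hsurj := QuotientGroup.mk'_surjective V
    obtain ⟨k, hk⟩ := hS2 (FreeGroup ℕ ⧸ V) (by
      intro s hs f
      choose f' hf' using fun i => hsurj (f i)
      have e1 : f = fun i => QuotientGroup.mk' V (f' i) := funext fun i => (hf' i).symm
      rw [e1, ← Pool.Agent.FBT.hom_lift]
      exact (QuotientGroup.eq_one_iff _).2
        (Subgroup.subset_closure ⟨s, hs, FreeGroup.lift f', rfl⟩)) w hw
      (fun i => QuotientGroup.mk' V (FreeGroup.of i))
    refine ⟨k, ?_⟩
    rw [← Pool.Agent.FBT.hom_lift, ← map_pow] at hk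
    have h1 := (QuotientGroup.eq_one_iff _).1 hk
    have h2 : FreeGroup.lift (fun i => (FreeGroup.of i : FreeGroup ℕ)) w = w := by
      have : FreeGroup.lift (fun i => (FreeGroup.of i : FreeGroup ℕ)) = MonoidHom.id _ := by
        ext; simp
      rw [this]; rfl
    rw [h2] at h1
    exact h1
  refine ⟨S, hS1, hclos, ?_⟩
  intro H _ hH hp w hw f
  obtain ⟨k, hk⟩ := hclos w hw
  have h1 : Subgroup.closure {x : FreeGroup ℕ | ∃ s ∈ S, ∃ φ : FreeGroup ℕ →* FreeGroup ℕ,
      φ s = x} ≤ (FreeGroup.lift f).ker := by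
    rw [Subgroup.closure_le]
    rintro x ⟨s, hs, φ, rfl⟩
    rw [SetLike.mem_coe, MonoidHom.mem_ker]
    have := hH s hs (fun i => FreeGroup.lift f (φ (FreeGroup.of i)))
    have h2 : FreeGroup.lift (fun i => FreeGroup.lift f (φ (FreeGroup.of i)))
        = (FreeGroup.lift f).comp φ := by
      ext; simp
    rw [h2] at this
    exact this
  have h2 : (FreeGroup.lift f w) ^ (Nat.card (G ⧸ A) ^ k) = 1 := by
    rw [← map_pow]; exact h1 hk
  by_contra hne
  have h3 : orderOf (FreeGroup.lift f w) ≠ 1 := fun h => hne (orderOf_eq_one_iff.1 h)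
  obtain ⟨p, hpp, hpd⟩ := Nat.exists_prime_and_dvd h3
  have h4 : p ∣ Nat.card (G ⧸ A) :=
    hpp.dvd_of_dvd_pow (hpd.trans (orderOf_dvd_of_pow_eq_one h2))
  obtain ⟨m, hm⟩ := hpd
  have hpos : 0 < Nat.card (G ⧸ A) ^ k := pow_pos Nat.card_pos k
  have hord : 0 < orderOf (FreeGroup.lift f w) :=
    orderOf_pos_iff.2 (isOfFinOrder_iff_pow_eq_one.2 ⟨_, hpos, h2⟩)
  have h5 : ((FreeGroup.lift f w) ^ m) ^ p = 1 := by
    rw [← pow_mul, mul_comm m p, ← hm, pow_orderOf_eq_one]
  have h6 := hp p hpp h4 _ h5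
  have h7 : orderOf (FreeGroup.lift f w) ∣ m := orderOf_dvd_of_pow_eq_one h6
  rw [hm] at h7
  have hm0 : 0 < m := by
    rcases Nat.eq_zero_or_pos m with h0 | h0
    · rw [hm, h0, mul_zero] at hord; exact absurd hord (lt_irrefl 0)
    · exact h0
  have h8 := Nat.le_of_dvd hm0 h7
  have h9 := hpp.one_lt
  nlinarith
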